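import Pool.Agent.R219.PG.Strat

/-!
# MP_f59e5e_pr: an oriented percolation game on `ℤ²` without limit value

Full negative answer to Q1.
-/

namespace Pool.Agent.Results.MP_f59e5e_pr.NoLimitValue

open MeasureTheory Filter Topology PG219

/-- frequently in `k` (even or odd) implies frequently along the horizons -/
lemma freq_aux (K : ℕ) (hK : 0 < K) (p : ℕ → Prop) (q : ℕ → Prop)
    (h : ∀ᶠ k in atTop, q k → p (n K k)) (hq : ∀ N : ℕ, ∃ k ≥ N, q k) : ∃ᶠ m in atTop, p m := by
  rw [Filter.frequently_atTop]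
  intro a
  obtain ⟨N, hN⟩ := eventually_atTop.1 h
  obtain ⟨k, hk, hqk⟩ := hq (max N a)
  exact ⟨n K k, ((le_max_right N a).trans hk).trans (le_n hK k),
    hN k ((le_max_left N a).trans hk) hqk⟩

theorem strong (ε : ℝ) (hε : 0 < ε) (hε2 : ε < 1 / 2) :
    ∃ G : PercolationGame 2, G.Oriented ∧
      (∀ ω z i j, G.g ω z i j = 0 ∨ G.g ω z i j = 1) ∧
      ∀ z, ∀ᵐ ω ∂G.P, (∃ᶠ n in atTop, 1 - ε ≤ G.value ω n z) ∧
        (∃ᶠ n in atTop, G.value ω n z ≤ ε) ∧
        ¬ ∃ l : ℝ, Tendsto (fun n : ℕ => G.value ω n z) atTop (𝓝 l) := by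
  obtain ⟨K, hKε⟩ := exists_nat_gt (3 / ε)
  have hKr : (0 : ℝ) < K := lt_trans (by positivity) hKε
  have hK : 0 < K := by exact_mod_cast hKr
  have h3 : 3 / (K : ℝ) ≤ ε := by
    rw [div_le_iff₀ hKr]
    rw [div_lt_iff₀ hε] at hKε
    linarith [mul_comm ε (K : ℝ)]
  have h2 : 2 / (K : ℝ) ≤ ε := le_trans (by gcongr; norm_num) h3
  refine ⟨game K hK, game_oriented hK, ?_, ?_⟩
  · intro ω z i j
    change pay ω z i j = 0 ∨ pay ω z i j = 1
    unfold pay
    split_ifs
    · exact Or.inr rfl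
    · exact Or.inl rfl
  · intro z
    have hae : ∀ᵐ ω ∂(mu K), (∃ᶠ n in atTop, 1 - ε ≤ (game K hK).value ω n z) ∧
        (∃ᶠ n in atTop, (game K hK).value ω n z ≤ ε) := by
      filter_upwards [ae_good hK z] with ω hω
      constructor
      · refine freq_aux K hK _ Odd ?_ ?_
        · filter_upwards [hω] with k hk hodd
          have := odd_value hK ω z k hodd hk.1 hk.2
          linarith
        · intro N
          exact ⟨2 * N + 1, by omega, ⟨N, rfl⟩⟩
      · refine freq_aux K hK _ (fun k => ¬ Odd k) ?_ ?_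
        · filter_upwards [hω] with k hk hodd
          have := even_value hK ω z k hodd hk.1 hk.2
          linarith
        · intro N
          refine ⟨2 * N, by omega, ?_⟩
          rw [Nat.not_odd_iff_even]
          exact ⟨N, by ring⟩
    change ∀ᵐ ω ∂(mu K), _
    filter_upwards [hae] with ω hω
    refine ⟨hω.1, hω.2, ?_⟩
    rintro ⟨l, hl⟩
    have h5 : 1 - ε ≤ l := by
      by_contra hlt
      push Not at hlt
      have := hl.eventually (gt_mem_nhds hlt)
      obtain ⟨a, ha1, ha2⟩ := (hω.1.and_eventually this).exists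
      linarith
    have h6 : l ≤ ε := by
      by_contra hlt
      push Not at hlt
      have := hl.eventually (lt_mem_nhds hlt)
      obtain ⟨a, ha1, ha2⟩ := (hω.2.and_eventually this).exists
      linarith
    linarith

/-- **Full negative answer.** Not every oriented percolation game on `ℤ²` has a limit value; and for
every `0 < ε < 1/2` there is an oriented percolation game on `ℤ²` with payoffs in `{0,1}` such that
for every state `z`, almost surely, `v_n(z) ≥ 1 - ε` for infinitely many `n` and `v_n(z) ≤ ε` for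
infinitely many `n`; in particular for every `z` almost surely `v_n(z)` does not converge. -/
theorem result :
    (¬ ∀ G : PercolationGame 2, G.Oriented → G.HasLimitValue) ∧
    (∀ ε : ℝ, 0 < ε → ε < 1 / 2 → ∃ G : PercolationGame 2, G.Oriented ∧
      (∀ ω z i j, G.g ω z i j = 0 ∨ G.g ω z i j = 1) ∧
      ∀ z, ∀ᵐ ω ∂G.P, (∃ᶠ n in atTop, 1 - ε ≤ G.value ω n z) ∧
        (∃ᶠ n in atTop, G.value ω n z ≤ ε) ∧
        ¬ ∃ l : ℝ, Tendsto (fun n : ℕ => G.value ω n z) atTop (𝓝 l)) := by
  refine ⟨fun hall => ?_, fun ε h1 h2 => strong ε h1 h2⟩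
  obtain ⟨G, hO, -, hG⟩ := strong (1 / 4) (by norm_num) (by norm_num)
  have hL := hall G hO 0
  have hN := hG 0
  have := G.mΩ
  have := G.prob
  obtain ⟨ω, hω1, hω2⟩ := (hL.and hN).exists
  exact hω2.2.2 hω1

end Pool.Agent.Results.MP_f59e5e_pr.NoLimitValue
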